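import Mathlib
import Pool.Agent.Helper379.Div3

set_option autoImplicit false

/-!
# MP_fb7c71_nt: three fleas, almost all areas are attained for the two triangles of the problem
-/

namespace Pool.Agent.Results.MP_fb7c71_nt.AlmostAllAreas

open Finset Filter
open scoped Topology

/-- rotation by a right angle -/
def rot (p : ℤ × ℤ) : ℤ × ℤ := (-p.2, p.1)

/-- `p q r s` (in this cyclic order) is a square -/
def Sq (p q r s : ℤ × ℤ) : Prop := p ≠ q ∧ (s - p = rot (q - p) ∨ s - p = - rot (q - p)) ∧ r - q = s - p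

/-- the configuration `{a, b, c}` is reachable from `{k₁, k₂, k₃}` -/
inductive Reach (k₁ k₂ k₃ : ℤ × ℤ) : ℤ × ℤ → ℤ × ℤ → ℤ × ℤ → Prop
  | start : Reach k₁ k₂ k₃ k₁ k₂ k₃
  | swap {a b c : ℤ × ℤ} : Reach k₁ k₂ k₃ a b c → Reach k₁ k₂ k₃ b a c
  | rotate {a b c : ℤ × ℤ} : Reach k₁ k₂ k₃ a b c → Reach k₁ k₂ k₃ b c a
  | move {p q t r s : ℤ × ℤ} : Reach k₁ k₂ k₃ p q t → Sq p q r s → Reach k₁ k₂ k₃ r s t

/-- the determinant of two vectors -/
def det (u v : ℤ × ℤ) : ℤ := u.1 * v.2 - u.2 * v.1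

/-- twice the area of the triangle `a b c` -/
def area2 (a b c : ℤ × ℤ) : ℕ := (det (b - a) (c - a)).natAbs

/-- the integers that are not areas of reachable configurations -/
def MissI (k₁ k₂ k₃ : ℤ × ℤ) : Set ℕ := {n | ∀ a b c, Reach k₁ k₂ k₃ a b c → area2 a b c ≠ 2 * n}

/-- the `m` for which `m + 1/2` is not the area of a reachable configuration -/
def MissH (k₁ k₂ k₃ : ℤ × ℤ) : Set ℕ := {m | ∀ a b c, Reach k₁ k₂ k₃ a b c → area2 a b c ≠ 2 * m + 1}

open Classical in
/-- natural density zero -/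
def DensityZero (A : Set ℕ) : Prop :=
  Tendsto (fun N : ℕ => (((range N).filter (fun n => n ∈ A)).card : ℝ) / N) atTop (𝓝 0)

/-- squared length -/
def nm (u : ℤ × ℤ) : ℤ := u.1 ^ 2 + u.2 ^ 2

/-- the product of Gaussian integers -/
def mul (g h : ℤ × ℤ) : ℤ × ℤ := (g.1 * h.1 - g.2 * h.2, g.1 * h.2 + g.2 * h.1)

/-- the three points do not lie in a proper square sublattice -/
def Primitive (k₁ k₂ k₃ : ℤ × ℤ) : Prop :=
  ¬ ∃ g : ℤ × ℤ, 1 < nm g ∧ (∃ h, k₂ - k₁ = mul g h) ∧ ∃ h, k₃ - k₁ = mul g h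

section Forms

variable (k₁ k₂ k₃ : ℤ × ℤ)

/-- reachable with sides of squared lengths `a`, `b` and twice the signed area `D` -/
def Q (a D b : ℤ) : Prop := ∃ x y z : ℤ × ℤ, Reach k₁ k₂ k₃ x y z ∧ nm (y - x) = a ∧ nm (z - x) = b ∧
  det (y - x) (z - x) = D

variable {k₁ k₂ k₃}

lemma Q_swap {a D b : ℤ} (h : Q k₁ k₂ k₃ a D b) : Q k₁ k₂ k₃ b (-D) a := by
  obtain ⟨x, y, z, h, h1, h2, h3⟩ := h
  refine ⟨x, z, y, ?_, h2, h1, ?_⟩
  · exact h.rotate.rotate.swap
  · rw [← h3]; unfold det; ring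

lemma Q_add {a D b : ℤ} (ha : 0 < a) (h : Q k₁ k₂ k₃ a D b) : Q k₁ k₂ k₃ a (D + a) (b + 2 * D + a) := by
  obtain ⟨x, y, z, h, h1, h2, h3⟩ := h
  have hxy : x ≠ y := by
    rintro rfl
    rw [← h1] at ha
    simp [nm] at ha
  have hsq : Sq x y (y - rot (y - x)) (x - rot (y - x)) := by
    refine ⟨hxy, Or.inr ?_, ?_⟩
    · simp
    · abel
  have h4 := (h.move hsq).swap
  refine ⟨_, _, _, h4, ?_, ?_, ?_⟩
  · rw [← h1]; simp [nm, rot]
  · rw [← h1, ← h2, ← h3]; simp [nm, rot, det]; ring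
  · rw [← h1, ← h3]; simp [nm, rot, det]; ring

lemma Q_sub {a D b : ℤ} (ha : 0 < a) (h : Q k₁ k₂ k₃ a D b) : Q k₁ k₂ k₃ a (D - a) (b - 2 * D + a) := by
  obtain ⟨x, y, z, h, h1, h2, h3⟩ := h
  have hxy : x ≠ y := by
    rintro rfl
    rw [← h1] at ha
    simp [nm] at ha
  have hsq : Sq x y (y + rot (y - x)) (x + rot (y - x)) := by
    refine ⟨hxy, Or.inl ?_, ?_⟩
    · simp
    · abel
  have h4 := (h.move hsq).swap
  refine ⟨_, _, _, h4, ?_, ?_, ?_⟩
  · rw [← h1]; simp [nm, rot]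
  · rw [← h1, ← h2, ← h3]; simp [nm, rot, det]; ring
  · rw [← h1, ← h3]; simp [nm, rot, det]; ring

lemma Q_area {a D b : ℤ} (h : Q k₁ k₂ k₃ a D b) : ∃ x y z, Reach k₁ k₂ k₃ x y z ∧ area2 x y z = D.natAbs := by
  obtain ⟨x, y, z, h, h1, h2, h3⟩ := h
  exact ⟨x, y, z, h, by rw [area2, h3]⟩

lemma Q_all {a D b : ℤ} (ha : 0 < a) (h : Q k₁ k₂ k₃ a D b) (k : ℤ) : ∃ b', Q k₁ k₂ k₃ a (D + k * a) b' := by
  induction k using Int.induction_on with
  | zero => exact ⟨b, by simpa using h⟩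
  | succ i ih =>
    obtain ⟨b', hb'⟩ := ih
    have h1 := Q_add ha hb'
    have e : D + (i : ℤ) * a + a = D + ((i : ℤ) + 1) * a := by ring
    rw [e] at h1
    exact ⟨_, h1⟩
  | pred i ih =>
    obtain ⟨b', hb'⟩ := ih
    have h1 := Q_sub ha hb'
    have e : D + -(i : ℤ) * a - a = D + (-(i : ℤ) - 1) * a := by ring
    rw [e] at h1
    exact ⟨_, h1⟩

lemma Q_start : Q k₁ k₂ k₃ (nm (k₂ - k₁)) (det (k₂ - k₁) (k₃ - k₁)) (nm (k₃ - k₁)) :=
  ⟨k₁, k₂, k₃, Reach.start, rfl, rfl, rfl⟩

lemma area_one (h : nm (k₂ - k₁) = 1) (m : ℕ) : ∃ a b c, Reach k₁ k₂ k₃ a b c ∧ area2 a b c = m := by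
  have h0 := Q_start (k₁ := k₁) (k₂ := k₂) (k₃ := k₃)
  rw [h] at h0
  obtain ⟨b', hb'⟩ := Q_all one_pos h0 ((m : ℤ) - det (k₂ - k₁) (k₃ - k₁))
  obtain ⟨x, y, z, h1, h2⟩ := Q_area hb'
  refine ⟨x, y, z, h1, ?_⟩
  rw [h2, mul_one, add_sub_cancel, Int.natAbs_natCast]

lemma abs_one {x y : ℤ} (h : x ^ 2 + y ^ 2 = 2) : (x = 1 ∨ x = -1) ∧ (y = 1 ∨ y = -1) := by
  have h1 : x ≤ 1 := by nlinarith [sq_nonneg y]
  have h2 : -1 ≤ x := by nlinarith [sq_nonneg y]
  have h3 : y ≤ 1 := by nlinarith [sq_nonneg x]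
  have h4 : -1 ≤ y := by nlinarith [sq_nonneg x]
  have hx : x = -1 ∨ x = 0 ∨ x = 1 := by omega
  have hy : y = -1 ∨ y = 0 ∨ y = 1 := by omega
  rcases hx with rfl | rfl | rfl <;> rcases hy with rfl | rfl | rfl <;> simp_all

lemma det_odd (h : nm (k₂ - k₁) = 2) (hp : Primitive k₁ k₂ k₃) : det (k₂ - k₁) (k₃ - k₁) % 2 = 1 := by
  by_contra hcon
  have h0 : det (k₂ - k₁) (k₃ - k₁) % 2 = 0 := by omega
  clear hcon
  apply hp
  generalize k₂ - k₁ = u at h h0 ⊢
  generalize k₃ - k₁ = v at h0 ⊢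
  obtain ⟨u1, u2⟩ := u
  obtain ⟨v1, v2⟩ := v
  simp only [nm, det] at h h0
  obtain ⟨hu1, hu2⟩ := abs_one h
  refine ⟨(u1, u2), by simp only [nm]; omega, ⟨(1, 0), by simp [mul]⟩, ?_⟩
  rcases hu1 with rfl | rfl <;> rcases hu2 with rfl | rfl
  · exact ⟨((v1 + v2) / 2, (v2 - v1) / 2), by simp only [mul, Prod.mk.injEq]; omega⟩
  · exact ⟨((v1 - v2) / 2, (v1 + v2) / 2), by simp only [mul, Prod.mk.injEq]; omega⟩
  · exact ⟨((v2 - v1) / 2, -(v1 + v2) / 2), by simp only [mul, Prod.mk.injEq]; omega⟩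
  · exact ⟨(-(v1 + v2) / 2, (v1 - v2) / 2), by simp only [mul, Prod.mk.injEq]; omega⟩

lemma area_two (h : nm (k₂ - k₁) = 2) (hp : Primitive k₁ k₂ k₃) (m : ℕ) :
    ∃ a b c, Reach k₁ k₂ k₃ a b c ∧ area2 a b c = 2 * m + 1 := by
  have h0 := Q_start (k₁ := k₁) (k₂ := k₂) (k₃ := k₃)
  have h3 := det_odd h hp
  rw [h] at h0
  obtain ⟨b', hb'⟩ := Q_all two_pos h0 ((2 * (m : ℤ) + 1 - det (k₂ - k₁) (k₃ - k₁)) / 2)
  obtain ⟨x, y, z, h1, h2⟩ := Q_area hb'
  refine ⟨x, y, z, h1, ?_⟩
  rw [h2]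
  omega

/-- reduction of the forms `(a, 2D, b)` -/
lemma reduce (Inv : ℤ → ℤ → ℤ → Prop) (s : ℤ)
    (hsw : ∀ a D b, Inv a D b → Inv b (-D) a)
    (hadd : ∀ a D b, 0 < a → 0 < b → a * b = D ^ 2 + s → Inv a D b → Inv a (D + a) (b + 2 * D + a))
    (hsub : ∀ a D b, 0 < a → 0 < b → a * b = D ^ 2 + s → Inv a D b → Inv a (D - a) (b - 2 * D + a))
    (hs : 0 < s)
    (hbase : ∀ a D b, 0 < a → a ≤ b → a * b = D ^ 2 + s → Inv a D b → 2 * D ≤ a → -(2 * D) ≤ a → Q k₁ k₂ k₃ a D b) :
    ∀ n : ℕ, ∀ a D b : ℤ, 0 < a → 0 < b → a + b ≤ n → a * b = D ^ 2 + s → Inv a D b → Q k₁ k₂ k₃ a D b := by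
  intro n
  induction n with
  | zero => intro a D b ha hb hab; exfalso; push_cast at hab; linarith
  | succ n ih =>
    have key : ∀ a D b : ℤ, 0 < a → a ≤ b → a + b ≤ (n + 1 : ℕ) → a * b = D ^ 2 + s → Inv a D b →
        Q k₁ k₂ k₃ a D b := by
      intro a D b ha hab hn he hI
      have hb : 0 < b := lt_of_lt_of_le ha hab
      push_cast at hn
      by_cases h1 : 2 * D ≤ a
      · by_cases h2 : -(2 * D) ≤ a
        · exact hbase a D b ha hab he hI h1 h2
        · push Not at h2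
          have h3 := hadd a D b ha hb he hI
          have e3 : a * (b + 2 * D + a) = (D + a) ^ 2 + s := by linear_combination he
          have hb' : 0 < b + 2 * D + a := by
            by_contra hcon
            push Not at hcon
            have : a * (b + 2 * D + a) ≤ 0 := mul_nonpos_of_nonneg_of_nonpos ha.le hcon
            nlinarith [sq_nonneg (D + a)]
          have h4 := ih a (D + a) (b + 2 * D + a) ha hb' (by linarith) e3 h3
          have h5 := Q_sub ha h4
          have e1 : D + a - a = D := by ring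
          have e2 : b + 2 * D + a - 2 * (D + a) + a = b := by ring
          rwa [e1, e2] at h5
      · push Not at h1
        have h3 := hsub a D b ha hb he hI
        have e3 : a * (b - 2 * D + a) = (D - a) ^ 2 + s := by linear_combination he
        have hb' : 0 < b - 2 * D + a := by
          by_contra hcon
          push Not at hcon
          have : a * (b - 2 * D + a) ≤ 0 := mul_nonpos_of_nonneg_of_nonpos ha.le hcon
          nlinarith [sq_nonneg (D - a)]
        have h4 := ih a (D - a) (b - 2 * D + a) ha hb' (by linarith) e3 h3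
        have h5 := Q_add ha h4
        have e1 : D - a + a = D := by ring
        have e2 : b - 2 * D + a + 2 * (D - a) + a = b := by ring
        rwa [e1, e2] at h5
    intro a D b ha hb hn he hI
    rcases le_total a b with h | h
    · exact key a D b ha h hn he hI
    · have h6 := Q_swap (key b (-D) a hb h (by rw [add_comm]; exact hn) (by linear_combination he) (hsw a D b hI))
      rwa [neg_neg] at h6

end Forms


section Density

/-- chinese remainder counting (copied from `Pool.Agent.N792.ACH.Sv`) -/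
lemma crt_count (s : Finset ℕ) (hs : ∀ p ∈ s, p.Prime) (Q : ℕ → ℕ → Prop) [∀ p, DecidablePred (Q p)] :
    #{r ∈ range (∏ p ∈ s, p) | ∀ p ∈ s, Q p (r % p)} = ∏ p ∈ s, #{r ∈ range p | Q p r} := by
  classical
  induction s using Finset.induction_on with
  | empty => simp
  | insert p s hp ih =>
    have hpp := hs p (mem_insert_self _ _)
    have hs' : ∀ q ∈ s, q.Prime := fun q hq => hs q (mem_insert_of_mem hq)
    rw [prod_insert hp, prod_insert hp, ← ih hs']
    set N := ∏ q ∈ s, q with hN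
    have hNpos : 0 < N := prod_pos (fun q hq => (hs' q hq).pos)
    have hcop : Nat.Coprime p N := by
      rw [hN]
      exact Nat.Coprime.prod_right fun q hq => (Nat.coprime_primes hpp (hs' q hq)).2 (by
        rintro rfl; exact hp hq)
    have hinj : Set.InjOn (fun r => (r % p, r % N)) (range (p * N) : Set ℕ) := by
      intro a ha b hb hab
      simp only [coe_range, Set.mem_Iio] at ha hb
      simp only [Prod.mk.injEq] at hab
      have h1 : a ≡ b [MOD p * N] := (Nat.modEq_and_modEq_iff_modEq_mul hcop).1 ⟨hab.1, hab.2⟩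
      exact Nat.ModEq.eq_of_lt_of_lt h1 ha hb
    have himg : (range (p * N)).image (fun r => (r % p, r % N)) = range p ×ˢ range N := by
      apply eq_of_subset_of_card_le
      · intro x hx
        rw [mem_image] at hx
        obtain ⟨r, _, rfl⟩ := hx
        rw [mem_product, mem_range, mem_range]
        exact ⟨Nat.mod_lt _ hpp.pos, Nat.mod_lt _ hNpos⟩
      · rw [card_image_of_injOn hinj]; simp
    rw [← card_product]
    have h2 : ({r ∈ range p | Q p r} ×ˢ {r ∈ range N | ∀ q ∈ s, Q q (r % q)}) =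
        ((range (p * N)).filter (fun r => ∀ q ∈ insert p s, Q q (r % q))).image (fun r => (r % p, r % N)) := by
      ext x
      simp only [mem_product, mem_filter, mem_image, mem_range]
      constructor
      · rintro ⟨⟨h1, h2⟩, h3, h4⟩
        have hx : x ∈ range p ×ˢ range N := by rw [mem_product, mem_range, mem_range]; exact ⟨h1, h3⟩
        rw [← himg, mem_image] at hx
        obtain ⟨r, hr, rfl⟩ := hx
        refine ⟨r, ⟨mem_range.1 hr, ?_⟩, rfl⟩
        intro q hq
        rcases mem_insert.1 hq with rfl | hq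
        · exact h2
        · have := h4 q hq
          rwa [Nat.mod_mod_of_dvd _ (dvd_prod_of_mem _ hq)] at this
      · rintro ⟨r, ⟨h1, h2⟩, rfl⟩
        refine ⟨⟨Nat.mod_lt _ hpp.pos, h2 p (mem_insert_self _ _)⟩, Nat.mod_lt _ hNpos, ?_⟩
        intro q hq
        rw [Nat.mod_mod_of_dvd _ (dvd_prod_of_mem _ hq)]
        exact h2 q (mem_insert_of_mem hq)
    rw [h2, card_image_of_injOn]
    intro a ha b hb hab
    exact hinj (by simpa using (mem_filter.1 ha).1) (by simpa using (mem_filter.1 hb).1) hab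

lemma exists_T {q : ℕ} [NeZero q] {a : ZMod q} (ha : IsUnit a) {δ : ℝ} (hδ : 0 < δ) :
    ∃ T : Finset ℕ, (∀ p ∈ T, p.Prime ∧ (p : ZMod q) = a) ∧ ∏ p ∈ T, (1 - 2 / (p : ℝ)) ≤ δ := by
  classical
  have h1 := Pool.Agent.Helper379.Div3.not_summable_inv_primes_mod ha
  obtain ⟨f, hf⟩ : ∃ f : ℕ → ℝ, f = fun n : ℕ => if n.Prime ∧ (n : ZMod q) = a then (1 : ℝ) / n else 0 := ⟨_, rfl⟩
  rw [← hf] at h1
  have hf0 : ∀ n, 0 ≤ f n := by intro n; rw [hf]; simp only; split_ifs <;> positivity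
  obtain ⟨N, hN⟩ : ∃ N : ℕ, Real.log (1 / δ) ≤ ∑ n ∈ range N, f n := by
    by_contra hcon
    push Not at hcon
    exact h1 (summable_of_sum_range_le hf0 (fun n => (hcon n).le))
  refine ⟨(range N).filter (fun n : ℕ => n.Prime ∧ (n : ZMod q) = a), ?_, ?_⟩
  · intro p hp
    exact (mem_filter.1 hp).2
  · have h2 : ∏ p ∈ (range N).filter (fun n : ℕ => n.Prime ∧ (n : ZMod q) = a), (1 - 2 / (p : ℝ)) ≤
        ∏ p ∈ (range N).filter (fun n : ℕ => n.Prime ∧ (n : ZMod q) = a), Real.exp (-(2 / (p : ℝ))) := by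
      apply Finset.prod_le_prod
      · intro p hp
        have hp2 : (2 : ℝ) ≤ p := by exact_mod_cast (mem_filter.1 hp).2.1.two_le
        have : 2 / (p : ℝ) ≤ 1 := by rw [div_le_one (by linarith)]; exact hp2
        linarith
      · intro p hp
        have := Real.add_one_le_exp (-(2 / (p : ℝ)))
        linarith
    refine h2.trans ?_
    rw [← Real.exp_sum]
    have h3 : ∑ p ∈ (range N).filter (fun n : ℕ => n.Prime ∧ (n : ZMod q) = a), (-(2 / (p : ℝ))) ≤ - ∑ n ∈ range N, f n := by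
      rw [sum_filter, ← sum_neg_distrib]
      apply sum_le_sum
      intro n _
      rw [hf]
      simp only
      split_ifs with h
      · have : (0 : ℝ) ≤ 1 / n := by positivity
        have e : 2 / (n : ℝ) = 2 * (1 / n) := by ring
        rw [e]; linarith
      · simp
    calc Real.exp (∑ p ∈ (range N).filter (fun n : ℕ => n.Prime ∧ (n : ZMod q) = a), (-(2 / (p : ℝ))))
        ≤ Real.exp (-Real.log (1 / δ)) := Real.exp_le_exp.2 (by linarith)
      _ = δ := by rw [← Real.log_inv, one_div, inv_inv, Real.exp_log hδ]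

/-- few classes modulo a prime `1` modulo `4` avoid the two roots -/
lemma two_roots {p : ℕ} (hp : p.Prime) (hp4 : p % 4 = 1) {c d b : ℕ} (hc : ¬ p ∣ c) (hb : ¬ p ∣ b) :
    #{r ∈ range p | ¬ p ∣ (c * r + d) ^ 2 + b ^ 2} ≤ p - 2 := by
  classical
  have : Fact p.Prime := ⟨hp⟩
  obtain ⟨i, hi⟩ := ZMod.exists_sq_eq_neg_one_iff.2 (show p % 4 ≠ 3 by omega)
  have hb0 : (b : ZMod p) ≠ 0 := by
    rwa [Ne, ZMod.natCast_eq_zero_iff]
  have hc0 : (c : ZMod p) ≠ 0 := by
    rwa [Ne, ZMod.natCast_eq_zero_iff]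
  have hi0 : i ≠ 0 := by
    rintro rfl
    rw [mul_zero, neg_eq_zero] at hi
    exact one_ne_zero hi
  have hp2 : p ≠ 2 := by omega
  have h2 : (2 : ZMod p) ≠ 0 := by
    have : ((2 : ℕ) : ZMod p) ≠ 0 := by
      rw [Ne, ZMod.natCast_eq_zero_iff]
      intro h
      have := Nat.le_of_dvd (by norm_num) h
      have := hp.two_le
      omega
    exact_mod_cast this
  obtain ⟨x, hx⟩ : ∃ x : ZMod p, x = ((b : ZMod p) * i - d) / c := ⟨_, rfl⟩
  obtain ⟨y, hy⟩ : ∃ y : ZMod p, y = (-((b : ZMod p) * i) - d) / c := ⟨_, rfl⟩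
  have hcx : (c : ZMod p) * x = (b : ZMod p) * i - d := by rw [hx]; field_simp
  have hcy : (c : ZMod p) * y = -((b : ZMod p) * i) - d := by rw [hy]; field_simp
  have hne : x.val ≠ y.val := by
    intro h
    have h3 := ZMod.val_injective p h
    rw [h3] at hcx
    have h4 : 2 * ((b : ZMod p) * i) = 0 := by linear_combination hcy - hcx
    rcases mul_eq_zero.1 h4 with h5 | h5
    · exact h2 h5
    · rcases mul_eq_zero.1 h5 with h6 | h6
      · exact hb0 h6
      · exact hi0 h6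
  have hroot : ∀ z : ZMod p, ((c : ZMod p) * z + d) ^ 2 = -((b : ZMod p) ^ 2) → p ∣ (c * z.val + d) ^ 2 + b ^ 2 := by
    intro z hz
    rw [← ZMod.natCast_eq_zero_iff]
    push_cast
    rw [ZMod.natCast_zmod_val, hz]
    ring
  have hsub : {r ∈ range p | ¬ p ∣ (c * r + d) ^ 2 + b ^ 2} ⊆
      ((range p).erase x.val).erase y.val := by
    intro r hr
    rw [mem_filter] at hr
    rw [mem_erase, mem_erase]
    refine ⟨?_, ?_, hr.1⟩
    · rintro rfl
      apply hr.2
      apply hroot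
      rw [hcy]
      linear_combination -(b : ZMod p) * b * hi
    · rintro rfl
      apply hr.2
      apply hroot
      rw [hcx]
      linear_combination -(b : ZMod p) * b * hi
  refine (card_le_card hsub).trans ?_
  rw [card_erase_of_mem, card_erase_of_mem, card_range]
  · omega
  · rw [mem_range]; exact ZMod.val_lt _
  · rw [mem_erase, mem_range]
    exact ⟨hne.symm, ZMod.val_lt _⟩

lemma densityZero_of (A : Set ℕ) (h : ∀ δ : ℝ, 0 < δ → ∃ P : ℕ, ∀ A' : Finset ℕ, ∀ N : ℕ, (∀ n ∈ A', n < N ∧ n ∈ A) →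
    (A'.card : ℝ) ≤ (N + P) * δ) : DensityZero A := by
  classical
  unfold DensityZero
  rw [Metric.tendsto_atTop]
  intro ε hε
  obtain ⟨P, hP⟩ := h (ε / 3) (by positivity)
  refine ⟨P + 1, fun N hN => ?_⟩
  have hN0 : (0 : ℝ) < N := by exact_mod_cast (by omega : 0 < N)
  have hPN : (P : ℝ) ≤ N := by exact_mod_cast (by omega : P ≤ N)
  have h1 := hP ((range N).filter (fun n => n ∈ A)) N (fun n hn => by
    rw [mem_filter, mem_range] at hn; exact hn)
  rw [Real.dist_eq, sub_zero, abs_of_nonneg (by positivity), div_lt_iff₀ hN0]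
  nlinarith

/-- sets whose members avoid the roots modulo all primes of a class have density zero -/
lemma main_dens {q : ℕ} [NeZero q] {a : ZMod q} (ha : IsUnit a) (c d b : ℕ)
    (h4 : ∀ p : ℕ, p.Prime → (p : ZMod q) = a → p % 4 = 1 ∧ ¬ p ∣ c ∧ ¬ p ∣ b) (A : Set ℕ)
    (hA : ∀ n ∈ A, ∀ p : ℕ, p.Prime → (p : ZMod q) = a → ¬ p ∣ (c * n + d) ^ 2 + b ^ 2) : DensityZero A := by
  classical
  apply densityZero_of
  intro δ hδ
  obtain ⟨T, hT, hTδ⟩ := exists_T ha hδ
  obtain ⟨P, hP⟩ : ∃ P : ℕ, P = ∏ p ∈ T, p := ⟨_, rfl⟩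
  have hP0 : 0 < P := by rw [hP]; exact prod_pos (fun p hp => (hT p hp).1.pos)
  refine ⟨P, fun A' N hA' => ?_⟩
  have hcrt := crt_count T (fun p hp => (hT p hp).1) (fun (p r : ℕ) => ¬ p ∣ (c * r + d) ^ 2 + b ^ 2)
  rw [← hP] at hcrt
  obtain ⟨R, hR⟩ : ∃ R : Finset ℕ, R = {r ∈ range P | ∀ p ∈ T, ¬ p ∣ (c * (r % p) + d) ^ 2 + b ^ 2} := ⟨_, rfl⟩
  rw [← hR] at hcrt
  have hRc : (R.card : ℝ) ≤ P * δ := by
    have e1 : (R.card : ℝ) = ∏ p ∈ T, (#{r ∈ range p | ¬ p ∣ (c * r + d) ^ 2 + b ^ 2} : ℝ) := by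
      rw [hcrt]; push_cast; rfl
    have e2 : (P : ℝ) = ∏ p ∈ T, (p : ℝ) := by rw [hP]; push_cast; rfl
    have e4 : ∏ p ∈ T, (#{r ∈ range p | ¬ p ∣ (c * r + d) ^ 2 + b ^ 2} : ℝ) ≤ ∏ p ∈ T, ((p : ℝ) * (1 - 2 / (p : ℝ))) := by
      apply Finset.prod_le_prod (fun _ _ => Nat.cast_nonneg _)
      intro p hp
      obtain ⟨hpp, hpa⟩ := hT p hp
      obtain ⟨hp4, hpc, hpb⟩ := h4 p hpp hpa
      have h5 := two_roots hpp hp4 (d := d) hpc hpb
      have h6 : (#{r ∈ range p | ¬ p ∣ (c * r + d) ^ 2 + b ^ 2} : ℝ) ≤ ((p - 2 : ℕ) : ℝ) := by exact_mod_cast h5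
      rw [Nat.cast_sub hpp.two_le] at h6
      have hp0 : (p : ℝ) ≠ 0 := by exact_mod_cast hpp.ne_zero
      have e3 : (p : ℝ) * (1 - 2 / p) = p - (2 : ℕ) := by
        field_simp
        push_cast
        ring
      rw [e3]
      exact h6
    rw [e1]
    refine e4.trans ?_
    rw [prod_mul_distrib, ← e2]
    exact mul_le_mul_of_nonneg_left hTδ (Nat.cast_nonneg _)
  have hcard : A'.card ≤ (N / P + 1) * R.card := by
    have h1 : A'.card ≤ (range (N / P + 1) ×ˢ R).card := by
      apply Finset.card_le_card_of_injOn (fun n => (n / P, n % P))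
      · intro n hn
        obtain ⟨hnN, hnA⟩ := hA' n hn
        simp only [coe_product, Set.mem_prod, mem_coe, mem_range]
        refine ⟨?_, ?_⟩
        · exact Nat.lt_succ_of_le (Nat.div_le_div_right hnN.le)
        · rw [hR, mem_filter, mem_range]
          refine ⟨Nat.mod_lt _ hP0, ?_⟩
          intro p hp hdvd
          obtain ⟨hpp, hpa⟩ := hT p hp
          apply hA n hnA p hpp hpa
          have hpP : p ∣ P := by rw [hP]; exact dvd_prod_of_mem _ hp
          rw [Nat.mod_mod_of_dvd _ hpP] at hdvd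
          have h7 : (c * (n % p) + d) ^ 2 + b ^ 2 ≡ (c * n + d) ^ 2 + b ^ 2 [MOD p] := by
            have h8 : n % p ≡ n [MOD p] := Nat.mod_modEq n p
            exact ((((h8.mul_left c).add_right d).pow 2).add_right _)
          exact (h7.dvd_iff (dvd_refl p)).1 hdvd
      · intro m _ n _ hmn
        simp only [Prod.mk.injEq] at hmn
        rw [← Nat.div_add_mod m P, ← Nat.div_add_mod n P, hmn.1, hmn.2]
    rwa [card_product, card_range] at h1
  have hcard' : (A'.card : ℝ) ≤ ((N / P : ℕ) + 1) * R.card := by exact_mod_cast hcard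
  have hdiv : ((N / P : ℕ) : ℝ) * P ≤ N := by exact_mod_cast Nat.div_mul_le_self N P
  calc (A'.card : ℝ) ≤ ((N / P : ℕ) + 1) * R.card := hcard'
    _ ≤ ((N / P : ℕ) + 1) * (P * δ) := by gcongr
    _ = (((N / P : ℕ) : ℝ) * P + P) * δ := by ring
    _ ≤ (N + P) * δ := by gcongr

end Density


/-- twice the areas for `(0,0), (2,1), (3,2)` -/
lemma areas_A (m d : ℕ) (hd : d % 3 = 2) (hdvd : d ∣ m ^ 2 + 9) :
    ∃ a b c, Reach (0, 0) (2, 1) (3, 2) a b c ∧ area2 a b c = m := by
  obtain ⟨b, hb⟩ := hdvd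
  have hd0 : 0 < d := by omega
  have hb0 : 0 < b := by
    rcases Nat.eq_zero_or_pos b with h | h
    · subst h; omega
    · exact h
  have q1 : Q (0, 0) (2, 1) (3, 2) 2 1 5 :=
    ⟨(2, 1), (3, 2), (0, 0), Reach.start.rotate, by decide, by decide, by decide⟩
  have q2 : Q (0, 0) (2, 1) (3, 2) 2 (-1) 5 := by
    have := Q_sub (by norm_num) q1
    norm_num at this
    exact this
  have he : (d : ℤ) * b = (m : ℤ) ^ 2 + 9 := by exact_mod_cast hb.symm
  have key := reduce (k₁ := (0, 0)) (k₂ := (2, 1)) (k₃ := (3, 2)) (fun a _ b => a % 3 = 2 ∨ b % 3 = 2) 9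
    (fun a D b h => h.symm)
    (by
      intro a D b _ _ he hI
      have h3 : (a * b) % 3 = (D ^ 2 + 9) % 3 := by rw [he]
      rcases hI with hI | hI
      · exact Or.inl hI
      · rcases (by omega : a % 3 = 0 ∨ a % 3 = 1 ∨ a % 3 = 2) with h | h | h <;>
        rcases (by omega : D % 3 = 0 ∨ D % 3 = 1 ∨ D % 3 = 2) with h' | h' | h' <;>
        first
          | omega
          | (exfalso; revert h3; simp [Int.mul_emod, Int.add_emod, pow_two, h, h', hI]))
    (by
      intro a D b _ _ he hI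
      have h3 : (a * b) % 3 = (D ^ 2 + 9) % 3 := by rw [he]
      rcases hI with hI | hI
      · exact Or.inl hI
      · rcases (by omega : a % 3 = 0 ∨ a % 3 = 1 ∨ a % 3 = 2) with h | h | h <;>
        rcases (by omega : D % 3 = 0 ∨ D % 3 = 1 ∨ D % 3 = 2) with h' | h' | h' <;>
        first
          | omega
          | (exfalso; revert h3; simp [Int.mul_emod, Int.add_emod, pow_two, h, h', hI]))
    (by norm_num)
    (by
      intro a D b ha hab he hI h1 h2
      have ha4 : a ≤ 3 := by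
        by_contra hcon
        push Not at hcon
        nlinarith [mul_nonneg (sub_nonneg.2 h1) (by linarith : (0 : ℤ) ≤ a + 2 * D), mul_le_mul_of_nonneg_left hab ha.le]
      interval_cases a
      · have : D = 0 := by omega
        subst this
        have : b = 9 := by linarith
        subst this
        norm_num at hI
      · have hD : D = -1 ∨ D = 0 ∨ D = 1 := by omega
        rcases hD with rfl | rfl | rfl
        · have : b = 5 := by linarith
          subst this
          exact q2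
        · exfalso; omega
        · have : b = 5 := by linarith
          subst this
          exact q1
      · have hD : D = -1 ∨ D = 0 ∨ D = 1 := by omega
        rcases hD with rfl | rfl | rfl
        · exfalso; omega
        · have : b = 3 := by linarith
          subst this
          norm_num at hI
        · exfalso; omega)
    (d + b) d m b (by exact_mod_cast hd0) (by exact_mod_cast hb0) (by push_cast; exact le_rfl) he
    (Or.inl (by omega))
  obtain ⟨x, y, z, h, h'⟩ := Q_area key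
  exact ⟨x, y, z, h, by rw [h']; simp⟩

/-- twice the areas for `(0,0), (2,0), (4,1)` -/
lemma areas_B (m d : ℕ) (hd : d % 8 = 5) (hdvd : d ∣ m ^ 2 + 16) :
    ∃ a b c, Reach (0, 0) (2, 0) (4, 1) a b c ∧ area2 a b c = m := by
  obtain ⟨b, hb⟩ := hdvd
  have hd0 : 0 < d := by omega
  have hb0 : 0 < b := by
    rcases Nat.eq_zero_or_pos b with h | h
    · subst h; omega
    · exact h
  have q1 : Q (0, 0) (2, 0) (4, 1) 4 (-2) 5 :=
    ⟨(2, 0), (0, 0), (4, 1), Reach.start.swap, by decide, by decide, by decide⟩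
  have q2 : Q (0, 0) (2, 0) (4, 1) 4 2 5 := by
    have := Q_add (by norm_num) q1
    norm_num at this
    exact this
  have he : (d : ℤ) * b = (m : ℤ) ^ 2 + 16 := by exact_mod_cast hb.symm
  have cases8 : ∀ x : ℤ, x % 8 = 0 ∨ x % 8 = 1 ∨ x % 8 = 2 ∨ x % 8 = 3 ∨ x % 8 = 4 ∨ x % 8 = 5 ∨ x % 8 = 6 ∨
      x % 8 = 7 := by intro x; omega
  have key := reduce (k₁ := (0, 0)) (k₂ := (2, 0)) (k₃ := (4, 1)) (fun a _ b => a % 8 = 5 ∨ b % 8 = 5) 16
    (fun a D b h => h.symm)
    (by
      intro a D b _ _ he hI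
      have h3 : (a * b) % 8 = (D ^ 2 + 16) % 8 := by rw [he]
      rcases hI with hI | hI
      · exact Or.inl hI
      · rcases cases8 a with h | h | h | h | h | h | h | h <;>
        rcases cases8 D with h' | h' | h' | h' | h' | h' | h' | h' <;>
        first
          | omega
          | (exfalso; revert h3; simp [Int.mul_emod, Int.add_emod, pow_two, h, h', hI]))
    (by
      intro a D b _ _ he hI
      have h3 : (a * b) % 8 = (D ^ 2 + 16) % 8 := by rw [he]
      rcases hI with hI | hI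
      · exact Or.inl hI
      · rcases cases8 a with h | h | h | h | h | h | h | h <;>
        rcases cases8 D with h' | h' | h' | h' | h' | h' | h' | h' <;>
        first
          | omega
          | (exfalso; revert h3; simp [Int.mul_emod, Int.add_emod, pow_two, h, h', hI]))
    (by norm_num)
    (by
      intro a D b ha hab he hI h1 h2
      have ha4 : a ≤ 4 := by
        by_contra hcon
        push Not at hcon
        nlinarith [mul_nonneg (sub_nonneg.2 h1) (by linarith : (0 : ℤ) ≤ a + 2 * D), mul_le_mul_of_nonneg_left hab ha.le]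
      interval_cases a
      · have : D = 0 := by omega
        subst this
        have : b = 16 := by linarith
        subst this
        norm_num at hI
      · have hD : D = -1 ∨ D = 0 ∨ D = 1 := by omega
        rcases hD with rfl | rfl | rfl
        · exfalso; omega
        · have : b = 8 := by linarith
          subst this
          norm_num at hI
        · exfalso; omega
      · have hD : D = -1 ∨ D = 0 ∨ D = 1 := by omega
        rcases hD with rfl | rfl | rfl <;> (exfalso; omega)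
      · have hD : D = -2 ∨ D = -1 ∨ D = 0 ∨ D = 1 ∨ D = 2 := by omega
        rcases hD with rfl | rfl | rfl | rfl | rfl
        · have : b = 5 := by linarith
          subst this
          exact q1
        · exfalso; omega
        · have : b = 4 := by linarith
          subst this
          norm_num at hI
        · exfalso; omega
        · have : b = 5 := by linarith
          subst this
          exact q2)
    (d + b) d m b (by exact_mod_cast hd0) (by exact_mod_cast hb0) (by push_cast; exact le_rfl) he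
    (Or.inl (by omega))
  obtain ⟨x, y, z, h, h'⟩ := Q_area key
  exact ⟨x, y, z, h, by rw [h']; simp⟩

/-- **Almost all areas are attained for the two triangles of the problem.**  For `K = (0,0), (2,1), (3,2)`: (1) `m/2` is
the area of a reachable configuration whenever `m² + 9` has a divisor `d ≡ 2 (mod 3)`; (2) every half-integer `m + 1/2`
is an area; (3) the set of the integers that are not areas has natural density zero.  For `K = (0,0), (2,0), (4,1)`:
(4) `m/2` is an area whenever `m² + 16` has a divisor `d ≡ 5 (mod 8)`; (5) the integers and (6) the half-integers that are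
not areas have natural density zero.  (7) If `K` has a side of length one, every integer and every half-integer is an area.
(8) If `K` is primitive and has a side of squared length two, every half-integer is an area. -/
theorem result :
    (∀ m d : ℕ, d % 3 = 2 → d ∣ m ^ 2 + 9 → ∃ a b c, Reach (0, 0) (2, 1) (3, 2) a b c ∧ area2 a b c = m) ∧
    MissH (0, 0) (2, 1) (3, 2) = ∅ ∧
    DensityZero (MissI (0, 0) (2, 1) (3, 2)) ∧
    (∀ m d : ℕ, d % 8 = 5 → d ∣ m ^ 2 + 16 → ∃ a b c, Reach (0, 0) (2, 0) (4, 1) a b c ∧ area2 a b c = m) ∧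
    DensityZero (MissI (0, 0) (2, 0) (4, 1)) ∧
    DensityZero (MissH (0, 0) (2, 0) (4, 1)) ∧
    (∀ k₁ k₂ k₃ : ℤ × ℤ, nm (k₂ - k₁) = 1 → MissI k₁ k₂ k₃ = ∅ ∧ MissH k₁ k₂ k₃ = ∅) ∧
    (∀ k₁ k₂ k₃ : ℤ × ℤ, nm (k₂ - k₁) = 2 → Primitive k₁ k₂ k₃ → MissH k₁ k₂ k₃ = ∅) := by
  have h12 : ∀ p : ℕ, (p : ZMod 12) = ((5 : ℕ) : ZMod 12) → p % 12 = 5 := by
    intro p hp
    exact (ZMod.natCast_eq_natCast_iff' p 5 12).1 hp
  have h8 : ∀ p : ℕ, (p : ZMod 8) = ((5 : ℕ) : ZMod 8) → p % 8 = 5 := by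
    intro p hp
    exact (ZMod.natCast_eq_natCast_iff' p 5 8).1 hp
  have hB : ∀ p : ℕ, p.Prime → (p : ZMod 8) = ((5 : ℕ) : ZMod 8) → p % 4 = 1 ∧ ¬ p ∣ 2 ∧ ¬ p ∣ 4 := by
    intro p hp hpa
    have h5 := h8 p hpa
    refine ⟨by omega, ?_, ?_⟩
    · intro h
      have := Nat.le_of_dvd (by norm_num) h
      omega
    · intro h
      have := Nat.le_of_dvd (by norm_num) h
      omega
  refine ⟨areas_A, ?_, ?_, areas_B, ?_, ?_, ?_, ?_⟩
  · rw [Set.eq_empty_iff_forall_notMem]
    intro m hm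
    obtain ⟨a, b, c, h, h'⟩ := areas_A (2 * m + 1) 2 (by norm_num) ⟨2 * m ^ 2 + 2 * m + 5, by ring⟩
    exact hm a b c h h'
  · refine main_dens (q := 12) (a := ((5 : ℕ) : ZMod 12)) (by decide) 2 0 3 ?_ _ ?_
    · intro p hp hpa
      have h5 := h12 p hpa
      refine ⟨by omega, ?_, ?_⟩
      · intro h
        have := Nat.le_of_dvd (by norm_num) h
        omega
      · intro h
        have := Nat.le_of_dvd (by norm_num) h
        omega
    · intro n hn p hp hpa hdvd
      have h5 := h12 p hpa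
      obtain ⟨a, b, c, h, h'⟩ := areas_A (2 * n) p (by omega) (by simpa using hdvd)
      exact hn a b c h h'
  · refine main_dens (q := 8) (a := ((5 : ℕ) : ZMod 8)) (by decide) 2 0 4 hB _ ?_
    intro n hn p hp hpa hdvd
    have h5 := h8 p hpa
    obtain ⟨a, b, c, h, h'⟩ := areas_B (2 * n) p h5 (by simpa using hdvd)
    exact hn a b c h h'
  · refine main_dens (q := 8) (a := ((5 : ℕ) : ZMod 8)) (by decide) 2 1 4 hB _ ?_
    intro n hn p hp hpa hdvd
    have h5 := h8 p hpa
    obtain ⟨a, b, c, h, h'⟩ := areas_B (2 * n + 1) p h5 (by simpa using hdvd)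
    exact hn a b c h h'
  · intro k₁ k₂ k₃ hk
    rw [Set.eq_empty_iff_forall_notMem, Set.eq_empty_iff_forall_notMem]
    refine ⟨fun m hm => ?_, fun m hm => ?_⟩
    · obtain ⟨a, b, c, h, h'⟩ := area_one (k₃ := k₃) hk (2 * m)
      exact hm a b c h h'
    · obtain ⟨a, b, c, h, h'⟩ := area_one (k₃ := k₃) hk (2 * m + 1)
      exact hm a b c h h'
  · intro k₁ k₂ k₃ hk hp
    rw [Set.eq_empty_iff_forall_notMem]
    intro m hm
    obtain ⟨a, b, c, h, h'⟩ := area_two hk hp m
    exact hm a b c h h'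

end Pool.Agent.Results.MP_fb7c71_nt.AlmostAllAreas
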